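import Mathlib

/-!
# Pascalian polynomials have no common nontrivial roots

Write `x = 2 z / (1 + z ^ 2)`, `t = x ^ 2`, `b m = (2 m choose m) / 4 ^ m`.  Then
`2 P_n(z) = (1 + z ^ 2) ^ n ((1 + z) + (1 - z) A_n(x))`, where
`A_n(x) = 1 + x + (1/2) x ^ 2 + (1/2) x ^ 3 + (3/8) x ^ 4 + ...` (coefficients `b ⌊j / 2⌋`, `j ≤ n`).
A common root of `P_n` and `P_{n+k}` gives `∑_{n < j ≤ n + k} b ⌊j/2⌋ x ^ j = 0`, so `|x| ≤ 1 + 1/(n+1)`
(or `1 + 1/(n+2)` if `n` is odd) by the theorem of Eneström and Kakeya, and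
`(1 - x) A_n(x) ^ 2 = 1 + x`.  If `n = 2 M + 1` this means `∑_{m ≤ M} b m t ^ m / (M + 1 + m) = 0`,
which is impossible by Eneström and Kakeya; if `n = 2 M` it means `t (1 - t) S(t) ^ 2 = 4`, where
`S(t) = ∑_{i < M} (2 i + 1) b i t ^ i / (M + i + 1)`, which is impossible because of the size of `t`.
-/

set_option autoImplicit false

namespace Pool.Agent.Results.MP_454c72_al.NoCommonRoots

open Finset

/-- `B n k = binom(n, ⌊(n - k) / 2⌋)`. -/
def B (n k : ℕ) : ℕ := n.choose ((n - k) / 2)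

/-- The `n`th Pascalian polynomial `∑_{k=0}^{n} B(n, k) z ^ (n - k)`. -/
noncomputable def P (n : ℕ) : Polynomial ℤ :=
  ∑ k ∈ range (n + 1), Polynomial.C (B n k : ℤ) * Polynomial.X ^ (n - k)

/-! ### The coefficients -/

/-- `b m = binom(2 m, m) / 4 ^ m`. -/
noncomputable def b (m : ℕ) : ℝ := (Nat.centralBinom m : ℝ) / 4 ^ m

/-- `g n = binom(n, ⌊n / 2⌋) / 2 ^ n`. -/
noncomputable def g (n : ℕ) : ℝ := (n.choose (n / 2) : ℝ) / 2 ^ n

lemma b_zero : b 0 = 1 := by simp [b]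

lemma b_pos (m : ℕ) : 0 < b m := by
  unfold b
  have := Nat.centralBinom_pos m
  positivity

lemma b_succ (m : ℕ) : (2 * m + 2) * b (m + 1) = (2 * m + 1) * b m := by
  have h := Nat.succ_mul_centralBinom_succ m
  have h' : ((m : ℝ) + 1) * (Nat.centralBinom (m + 1) : ℝ)
      = 2 * (2 * m + 1) * (Nat.centralBinom m : ℝ) := by exact_mod_cast h
  unfold b
  rw [pow_succ]
  field_simp
  linear_combination 2 * h'

lemma b_le (m : ℕ) : b m ^ 2 * (3 * m + 1) ≤ 1 := by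
  induction m with
  | zero => simp [b_zero]
  | succ m ih =>
    have h := b_succ m
    have hb := b_pos m
    have h2 : b (m + 1) = (2 * m + 1) / (2 * m + 2) * b m := by
      field_simp
      linear_combination h
    rw [h2]
    push_cast
    have h3 : ((2 * (m : ℝ) + 1) / (2 * m + 2)) ^ 2 * (3 * (m + 1) + 1) ≤ 3 * m + 1 := by
      rw [div_pow, div_mul_eq_mul_div, div_le_iff₀ (by positivity)]
      nlinarith [Nat.cast_nonneg (α := ℝ) m]
    calc ((2 * (m : ℝ) + 1) / (2 * m + 2) * b m) ^ 2 * (3 * (m + 1) + 1)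
        = b m ^ 2 * (((2 * (m : ℝ) + 1) / (2 * m + 2)) ^ 2 * (3 * (m + 1) + 1)) := by ring
      _ ≤ b m ^ 2 * (3 * m + 1) := by gcongr
      _ ≤ 1 := ih

lemma g_even (m : ℕ) : g (2 * m) = b m := by
  unfold g b
  rw [Nat.centralBinom_eq_two_mul_choose, pow_mul]
  norm_num

lemma g_odd (m : ℕ) : g (2 * m + 1) = b (m + 1) := by
  unfold g b
  have h1 : (2 * m + 1) / 2 = m := by omega
  have h2 : Nat.centralBinom (m + 1) = 2 * (2 * m + 1).choose m := by
    rw [Nat.centralBinom_eq_two_mul_choose]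
    have h3 : 2 * (m + 1) = (2 * m + 1) + 1 := by ring
    rw [h3, Nat.choose_succ_succ, Nat.choose_symm_half]
    ring
  rw [h1, h2]
  push_cast
  have h4 : (4 : ℝ) ^ (m + 1) = 2 * 2 ^ (2 * m + 1) := by
    rw [pow_succ, pow_succ, pow_mul]
    norm_num
    ring
  rw [h4, mul_div_mul_left _ _ (by norm_num)]

lemma g_pos (n : ℕ) : 0 < g n := by
  unfold g
  have := Nat.choose_pos (Nat.div_le_self n 2)
  positivity

lemma g_ratio (M i : ℕ) (h : 2 * M ≤ i + 1) :
    g i ≤ (2 * M + 2) / (2 * M + 1) * g (i + 1) := by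
  rcases Nat.even_or_odd' i with ⟨m, rfl | rfl⟩
  · rw [g_even, g_odd]
    have hm : M ≤ m := by omega
    have hm' : (M : ℝ) ≤ m := by exact_mod_cast hm
    have hs := b_succ m
    have hb := b_pos m
    have h2 : b (m + 1) = (2 * m + 1) / (2 * m + 2) * b m := by
      field_simp
      linear_combination hs
    rw [h2, ← mul_assoc]
    have h3 : 1 ≤ (2 * (M : ℝ) + 2) / (2 * M + 1) * ((2 * m + 1) / (2 * m + 2)) := by
      rw [div_mul_div_comm, le_div_iff₀ (by positivity)]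
      nlinarith
    nlinarith
  · have h1 : 2 * m + 1 + 1 = 2 * (m + 1) := by ring
    rw [h1, g_even, g_odd]
    have hb := b_pos (m + 1)
    have h3 : 1 ≤ (2 * (M : ℝ) + 2) / (2 * M + 1) := by
      rw [le_div_iff₀ (by positivity)]
      nlinarith [Nat.cast_nonneg (α := ℝ) M]
    nlinarith

/-! ### The theorem of Eneström and Kakeya -/

lemma ek_aux (a : ℕ → ℝ) (r : ℝ) (hr : 0 ≤ r) (x : ℂ) (hx : r ≤ ‖x‖) (ha : ∀ i, 0 < a i) :
    ∀ K : ℕ, (∀ i < K, a i ≤ r * a (i + 1)) →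
      ‖((r : ℂ) - x) * (∑ i ∈ range (K + 1), (a i : ℂ) * x ^ i) + (a K : ℂ) * x ^ (K + 1)‖
        ≤ r * a K * ‖x‖ ^ K := by
  intro K
  induction K with
  | zero =>
    intro _
    have h : ((r : ℂ) - x) * (∑ i ∈ range (0 + 1), (a i : ℂ) * x ^ i) + (a 0 : ℂ) * x ^ (0 + 1)
        = ((r * a 0 : ℝ) : ℂ) := by
      simp
      ring
    rw [h, Complex.norm_real, Real.norm_of_nonneg (mul_nonneg hr (ha 0).le)]
    simp
  | succ K ih =>
    intro h
    have ih' := ih (fun i hi => h i (by omega))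
    have hK := h K (by omega)
    rw [Finset.sum_range_succ]
    have e : ((r : ℂ) - x) * (∑ i ∈ range (K + 1), (a i : ℂ) * x ^ i + (a (K + 1) : ℂ) * x ^ (K + 1))
          + (a (K + 1) : ℂ) * x ^ (K + 1 + 1)
        = (((r : ℂ) - x) * (∑ i ∈ range (K + 1), (a i : ℂ) * x ^ i) + (a K : ℂ) * x ^ (K + 1))
          + ((r * a (K + 1) - a K : ℝ) : ℂ) * x ^ (K + 1) := by
      push_cast
      ring
    rw [e]
    refine (norm_add_le _ _).trans ?_
    rw [norm_mul, Complex.norm_real, Real.norm_of_nonneg (by linarith), norm_pow]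
    have h1 : r * a K * ‖x‖ ^ K ≤ a K * ‖x‖ ^ (K + 1) := by
      rw [pow_succ]
      have : 0 ≤ a K * ‖x‖ ^ K := mul_nonneg (ha K).le (by positivity)
      nlinarith
    nlinarith

lemma ek (a : ℕ → ℝ) (r : ℝ) (hr : 0 ≤ r) (x : ℂ) (ha : ∀ i, 0 < a i) (K : ℕ)
    (h : ∀ i < K, a i ≤ r * a (i + 1))
    (h0 : ∑ i ∈ range (K + 1), (a i : ℂ) * x ^ i = 0) : ‖x‖ ≤ r := by
  by_contra hc
  rw [not_le] at hc
  have := ek_aux a r hr x hc.le ha K h
  rw [h0, mul_zero, zero_add, norm_mul, Complex.norm_real, Real.norm_of_nonneg (ha K).le, norm_pow,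
    pow_succ] at this
  have hx : 0 < ‖x‖ := lt_of_le_of_lt hr hc
  have h2 : 0 < a K * ‖x‖ ^ K := mul_pos (ha K) (by positivity)
  nlinarith

/-! ### The polynomials `F`, `H`, `S` -/

noncomputable def F (M : ℕ) (t : ℂ) : ℂ := ∑ m ∈ range M, (b m : ℂ) * t ^ m

noncomputable def H (M : ℕ) (t : ℂ) : ℂ := ∑ m ∈ range M, (b m : ℂ) / (M + m) * t ^ m

noncomputable def s (M i : ℕ) : ℝ := (2 * i + 1) * b i / (M + i + 1)

noncomputable def S (M : ℕ) (t : ℂ) : ℂ := ∑ i ∈ range M, (s M i : ℂ) * t ^ i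

lemma bC_succ (m : ℕ) : (2 * (m : ℂ) + 2) * (b (m + 1) : ℂ) = (2 * m + 1) * (b m : ℂ) := by
  exact_mod_cast b_succ m

/-- The telescoping term. -/
noncomputable def gg (M : ℕ) (t : ℂ) (m : ℕ) : ℂ := 2 * m * (b m : ℂ) / (M + m) * t ^ m

lemma cast_ne (M m : ℕ) (hM : 0 < M) : (M : ℂ) + m ≠ 0 := by
  have : ((M + m : ℕ) : ℂ) ≠ 0 := by
    rw [Nat.cast_ne_zero]; omega
  simpa using this

lemma J (M : ℕ) (hM : 0 < M) (t : ℂ) :
    2 * M * H M t - 2 * (1 - t) * F M t - (1 - t) * ((b M : ℂ) * t ^ M)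
      = (2 * M + 1) * t * H (M + 1) t := by
  have hM' : (M : ℂ) ≠ 0 := by
    rw [Nat.cast_ne_zero]; omega
  have key : ∑ m ∈ range M, (gg M t (m + 1) - gg M t m) = gg M t M - gg M t 0 :=
    Finset.sum_range_sub _ _
  have h1 : ∑ m ∈ range M, (gg M t (m + 1) - gg M t m)
      = 2 * M * H M t - 2 * (1 - t) * F M t
        - (2 * M + 1) * t * ∑ m ∈ range M, (b m : ℂ) / ((M + 1 : ℕ) + m) * t ^ m := by
    unfold H F
    rw [Finset.mul_sum, Finset.mul_sum, Finset.mul_sum, ← Finset.sum_sub_distrib,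
      ← Finset.sum_sub_distrib]
    refine Finset.sum_congr rfl (fun m _ => ?_)
    unfold gg
    have hs := bC_succ m
    have n1 := cast_ne M m hM
    have n2 : (M : ℂ) + 1 + m ≠ 0 := by
      have := cast_ne M (m + 1) hM
      push_cast at this
      intro h; apply this; linear_combination h
    have n3 : (M : ℂ) + (m + 1) ≠ 0 := by
      intro h; apply n2; linear_combination h
    have e1 : 2 * ((m + 1 : ℕ) : ℂ) * (b (m + 1) : ℂ) = (2 * m + 1) * (b m : ℂ) := by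
      push_cast; linear_combination hs
    rw [e1]
    push_cast
    rw [pow_succ]
    field_simp
    ring
  have h0 : gg M t 0 = 0 := by simp [gg]
  have hMM : gg M t M = (b M : ℂ) * t ^ M := by
    unfold gg
    field_simp
    ring
  rw [h0, hMM, h1] at key
  have h2 : H (M + 1) t = ∑ m ∈ range M, (b m : ℂ) / ((M + 1 : ℕ) + m) * t ^ m
      + (b M : ℂ) / (2 * M + 1) * t ^ M := by
    unfold H
    rw [Finset.sum_range_succ]
    congr 2
    push_cast
    ring
  have n4 : (2 * (M : ℂ) + 1) ≠ 0 := by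
    have : ((2 * M + 1 : ℕ) : ℂ) ≠ 0 := by
      rw [Nat.cast_ne_zero]; omega
    simpa using this
  rw [h2, mul_add]
  have e3 : (2 * (M : ℂ) + 1) * t * ((b M : ℂ) / (2 * M + 1) * t ^ M) = t * ((b M : ℂ) * t ^ M) := by
    field_simp
  rw [e3]
  linear_combination key

lemma I (M : ℕ) (t : ℂ) :
    (1 - t) * F (M + 1) t ^ 2 + 2 * (M + 1) * ((b (M + 1) : ℂ) * t ^ (M + 1)) * H (M + 1) t = 1 := by
  induction M with
  | zero =>
    have hb := bC_succ 0
    have : (b (0 + 1) : ℂ) = 1 / 2 := by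
      rw [b_zero] at hb
      push_cast at hb ⊢
      linear_combination hb / 2
    rw [this]
    simp [F, H, b_zero]
  | succ M ih =>
    have hJ := J (M + 1) (by omega) t
    have hF : F (M + 1 + 1) t = F (M + 1) t + (b (M + 1) : ℂ) * t ^ (M + 1) := by
      unfold F
      rw [Finset.sum_range_succ]
    have hb := bC_succ (M + 1)
    rw [hF]
    push_cast at hJ hb ⊢
    have e : 2 * ((M : ℂ) + 1 + 1) * ((b (M + 1 + 1) : ℂ) * t ^ (M + 1 + 1)) * H (M + 1 + 1) t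
        = ((b (M + 1) : ℂ) * t ^ (M + 1)) * ((2 * (M + 1) + 1) * t * H (M + 1 + 1) t) := by
      rw [pow_succ t (M + 1)]
      linear_combination (t ^ (M + 1) * t * H (M + 1 + 1) t) * hb
    rw [e, ← hJ]
    linear_combination ih

lemma J' (M : ℕ) (hM : 0 < M) (t : ℂ) :
    2 * F M t + (b M : ℂ) * t ^ M = 2 * M * H M t + t * S M t := by
  have hM' : (M : ℂ) ≠ 0 := by
    rw [Nat.cast_ne_zero]; omega
  have key : ∑ m ∈ range M, (gg M t (m + 1) - gg M t m) = gg M t M - gg M t 0 :=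
    Finset.sum_range_sub _ _
  have h1 : ∑ m ∈ range M, (gg M t (m + 1) - gg M t m)
      = t * S M t + 2 * M * H M t - 2 * F M t := by
    unfold H F S
    rw [Finset.mul_sum, Finset.mul_sum, Finset.mul_sum, ← Finset.sum_add_distrib,
      ← Finset.sum_sub_distrib]
    refine Finset.sum_congr rfl (fun m _ => ?_)
    unfold gg s
    have hs := bC_succ m
    have n1 := cast_ne M m hM
    have n2 : (M : ℂ) + m + 1 ≠ 0 := by
      have := cast_ne M (m + 1) hM
      push_cast at this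
      intro h; apply this; linear_combination h
    have n3 : (M : ℂ) + (m + 1) ≠ 0 := by
      intro h; apply n2; linear_combination h
    have e1 : 2 * ((m + 1 : ℕ) : ℂ) * (b (m + 1) : ℂ) = (2 * m + 1) * (b m : ℂ) := by
      push_cast; linear_combination hs
    rw [e1]
    push_cast
    rw [pow_succ]
    field_simp
    ring
  have h0 : gg M t 0 = 0 := by simp [gg]
  have hMM : gg M t M = (b M : ℂ) * t ^ M := by
    unfold gg
    field_simp
    ring
  rw [h0, hMM, h1] at key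
  linear_combination -key


/-! ### The partial sums `A n` -/

noncomputable def A (n : ℕ) (x : ℂ) : ℂ := 1 + ∑ i ∈ range n, (g i : ℂ) * x ^ (i + 1)

lemma A_succ (n : ℕ) (x : ℂ) : A (n + 1) x = A n x + (g n : ℂ) * x ^ (n + 1) := by
  unfold A
  rw [Finset.sum_range_succ]
  ring

lemma A_even (M : ℕ) (x : ℂ) :
    A (2 * M) x = (1 + x) * F M (x ^ 2) + (b M : ℂ) * (x ^ 2) ^ M := by
  induction M with
  | zero => simp [A, F, b_zero]
  | succ M ih =>
    have e : 2 * (M + 1) = 2 * M + 1 + 1 := by ring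
    rw [e, A_succ, A_succ, ih, g_even, g_odd]
    unfold F
    rw [Finset.sum_range_succ]
    have h1 : x ^ (2 * M + 1) = x * (x ^ 2) ^ M := by
      rw [pow_succ, pow_mul]; ring
    have h2 : x ^ (2 * M + 1 + 1) = (x ^ 2) ^ (M + 1) := by
      rw [← pow_mul]; ring_nf
    rw [h1, h2]
    ring

lemma A_odd (M : ℕ) (x : ℂ) :
    A (2 * M + 1) x = (1 + x) * F (M + 1) (x ^ 2) := by
  rw [A_succ, A_even, g_even]
  unfold F
  rw [Finset.sum_range_succ]
  have h1 : x ^ (2 * M + 1) = x * (x ^ 2) ^ M := by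
    rw [pow_succ, pow_mul]; ring
  rw [h1]
  ring

/-! ### Evaluation of the Pascalian polynomials -/

noncomputable def Pc (n : ℕ) (z : ℂ) : ℂ := ∑ j ∈ range (n + 1), (n.choose (j / 2) : ℂ) * z ^ j

lemma aeval_P (n : ℕ) (z : ℂ) : Polynomial.aeval z (P n) = Pc n z := by
  unfold P Pc B
  rw [map_sum]
  rw [← Finset.sum_range_reflect]
  refine Finset.sum_congr rfl (fun k hk => ?_)
  rw [Finset.mem_range] at hk
  have h1 : n + 1 - 1 - k = n - k := by omega
  have h2 : n - (n - k) = k := by omega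
  rw [h1, h2]
  simp

lemma Pc_succ (n : ℕ) (z : ℂ) :
    Pc (n + 1) z = (1 + z ^ 2) * Pc n z + (n.choose (n / 2) : ℂ) * z ^ (n + 1) * (1 - z) := by
  have hsym : n.choose ((n + 1) / 2) = n.choose (n / 2) := by
    rw [← Nat.choose_symm (show n / 2 ≤ n by omega)]
    congr 1
    omega
  have hP : ∀ j ∈ range n, ((n + 1).choose ((j + 2) / 2) : ℂ) * z ^ (j + 2)
      = (n.choose ((j + 2) / 2) : ℂ) * z ^ (j + 2) + z ^ 2 * ((n.choose (j / 2) : ℂ) * z ^ j) := by
    intro j _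
    have h1 : (j + 2) / 2 = j / 2 + 1 := by omega
    rw [h1, Nat.choose_succ_succ]
    push_cast
    ring
  have hL : Pc (n + 1) z = ∑ j ∈ range n, ((n + 1).choose ((j + 2) / 2) : ℂ) * z ^ (j + 2)
      + (1 + z) := by
 
    unfold Pc
    rw [Finset.sum_range_succ', Finset.sum_range_succ']
    have e1 : (((n + 1).choose ((0 + 1) / 2) : ℕ) : ℂ) * z ^ (0 + 1) = z := by simp
    have e0 : (((n + 1).choose (0 / 2) : ℕ) : ℂ) * z ^ 0 = 1 := by simp
    have e2 : (∑ k ∈ range n, (((n + 1).choose ((k + 1 + 1) / 2) : ℕ) : ℂ) * z ^ (k + 1 + 1))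
        = ∑ j ∈ range n, (((n + 1).choose ((j + 2) / 2) : ℕ) : ℂ) * z ^ (j + 2) := rfl
    rw [e1, e0, e2]
    ring
  have hR : ∑ j ∈ range n, (n.choose ((j + 2) / 2) : ℂ) * z ^ (j + 2) + (1 + z)
      = Pc n z + (n.choose ((n + 1) / 2) : ℂ) * z ^ (n + 1) := by
    unfold Pc
    rw [← Finset.sum_range_succ (fun j => (n.choose (j / 2) : ℂ) * z ^ j) (n + 1)]
    rw [Finset.sum_range_succ', Finset.sum_range_succ']
    have e1 : ((n.choose ((0 + 1) / 2) : ℕ) : ℂ) * z ^ (0 + 1) = z := by simp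
    have e0 : ((n.choose (0 / 2) : ℕ) : ℂ) * z ^ 0 = 1 := by simp
    have e2 : (∑ k ∈ range n, ((n.choose ((k + 1 + 1) / 2) : ℕ) : ℂ) * z ^ (k + 1 + 1))
        = ∑ j ∈ range n, ((n.choose ((j + 2) / 2) : ℕ) : ℂ) * z ^ (j + 2) := rfl
    rw [e1, e0, e2]
    ring
  have hR2 : ∑ j ∈ range n, (n.choose (j / 2) : ℂ) * z ^ j
      = Pc n z - (n.choose (n / 2) : ℂ) * z ^ n := by
    unfold Pc
    rw [Finset.sum_range_succ]
    ring
  rw [hL, Finset.sum_congr rfl hP, Finset.sum_add_distrib, ← Finset.mul_sum, hR2]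
  have : ∑ j ∈ range n, (n.choose ((j + 2) / 2) : ℂ) * z ^ (j + 2)
      = Pc n z + (n.choose ((n + 1) / 2) : ℂ) * z ^ (n + 1) - (1 + z) := by
    rw [← hR]; ring
  rw [this, hsym]
  ring

lemma Pc_eq (z x : ℂ) (hx : x * (1 + z ^ 2) = 2 * z) (n : ℕ) :
    2 * Pc n z = (1 + z ^ 2) ^ n * ((1 + z) + (1 - z) * A n x) := by
  induction n with
  | zero => simp [Pc, A]; ring
  | succ n ih =>
    rw [Pc_succ, A_succ]
    have h1 : (n.choose (n / 2) : ℂ) * z ^ (n + 1) * 2 = (g n : ℂ) * x ^ (n + 1) * (1 + z ^ 2) ^ (n + 1) := by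
      rw [mul_assoc, mul_assoc, ← mul_pow, hx, mul_pow]
      have : (g n : ℂ) * 2 ^ n = (n.choose (n / 2) : ℂ) := by
        unfold g
        push_cast
        field_simp
      rw [← this]
      ring
    rw [pow_succ (1 + z ^ 2) n] at h1 ⊢
    linear_combination (1 + z ^ 2) * ih + (1 - z) * h1

/-! ### The two cases -/

/-- `n = 2 M + 1`. -/
lemma odd_case (M : ℕ) (t : ℂ) (ht : t ≠ 0) (h : (1 - t) * F (M + 1) t ^ 2 = 1) :
    1 ≤ (M : ℝ) / (M + 1) * ‖t‖ := by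
  have hI := I M t
  rw [h] at hI
  have hb : (b (M + 1) : ℂ) ≠ 0 := by
    exact_mod_cast (b_pos (M + 1)).ne'
  have hM : ((M : ℂ) + 1) ≠ 0 := by exact_mod_cast Nat.succ_ne_zero M
  have hH : H (M + 1) t = 0 := by
    have : 2 * ((M : ℂ) + 1) * ((b (M + 1) : ℂ) * t ^ (M + 1)) * H (M + 1) t = 0 := by
      linear_combination hI
    rcases mul_eq_zero.mp this with h1 | h1
    · exfalso
      have : 2 * ((M : ℂ) + 1) * ((b (M + 1) : ℂ) * t ^ (M + 1)) ≠ 0 :=
        mul_ne_zero (mul_ne_zero two_ne_zero hM) (mul_ne_zero hb (pow_ne_zero _ ht))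
      exact this h1
    · exact h1
  have hrev : ∑ i ∈ range (M + 1), ((b (M - i) / (M + 1 + (M - i : ℕ)) : ℝ) : ℂ) * (t⁻¹) ^ i = 0 := by
    have h2 : H (M + 1) t * (t⁻¹) ^ M = 0 := by rw [hH, zero_mul]
    rw [← h2]
    unfold H
    rw [Finset.sum_mul, ← Finset.sum_range_reflect]
    refine Finset.sum_congr rfl (fun i hi => ?_)
    rw [Finset.mem_range] at hi
    have h3 : M + 1 - 1 - i = M - i := by omega
    rw [h3]
    push_cast
    have h4 : t ^ i * (t⁻¹) ^ M = (t⁻¹) ^ (M - i) := by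
      have : M = i + (M - i) := by omega
      conv_lhs => rw [this, pow_add]
      rw [← mul_assoc, ← mul_pow, mul_inv_cancel₀ ht, one_pow, one_mul]
    have h5 : M - (M - i) = i := by omega
    rw [h5, mul_assoc, h4]
  have := ek (fun i => b (M - i) / (M + 1 + (M - i : ℕ))) ((M : ℝ) / (M + 1)) (by positivity) t⁻¹
    (fun i => div_pos (b_pos _) (by positivity)) M ?_ hrev
  · rw [norm_inv] at this
    have ht' : 0 < ‖t‖ := norm_pos_iff.mpr ht
    calc (1 : ℝ) = ‖t‖⁻¹ * ‖t‖ := by field_simp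
      _ ≤ (M : ℝ) / (M + 1) * ‖t‖ := by gcongr
  · intro i hi
    obtain ⟨m, hm⟩ : ∃ m, m = M - (i + 1) := ⟨_, rfl⟩
    have h1 : M - i = m + 1 := by omega
    obtain ⟨d, rfl⟩ : ∃ d, M = m + 1 + d := ⟨i, by omega⟩
    rw [h1, ← hm]
    have hs := b_succ m
    have hb := b_pos m
    have h2 : b (m + 1) = (2 * m + 1) / (2 * m + 2) * b m := by
      field_simp
      linear_combination hs
    rw [h2]
    have hcoef : (2 * (m : ℝ) + 1) / (2 * m + 2) / (m + 1 + d + 1 + (m + 1))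
        ≤ (m + 1 + d) / (m + 1 + d + 1) / (m + 1 + d + 1 + m) := by
      rw [div_div, div_div, div_le_div_iff₀ (by positivity) (by positivity)]
      have hm0 : (0 : ℝ) ≤ m := Nat.cast_nonneg m
      have hd0 : (0 : ℝ) ≤ d := Nat.cast_nonneg d
      nlinarith [mul_nonneg hm0 hd0, mul_nonneg hm0 hm0, mul_nonneg hd0 hd0,
        mul_nonneg (mul_nonneg hm0 hm0) hd0, mul_nonneg (mul_nonneg hd0 hd0) hm0]
    push_cast
    calc (2 * (m : ℝ) + 1) / (2 * m + 2) * b m / (m + 1 + d + 1 + (m + 1))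
        = ((2 * (m : ℝ) + 1) / (2 * m + 2) / (m + 1 + d + 1 + (m + 1))) * b m := by ring
      _ ≤ ((m + 1 + d) / (m + 1 + d + 1) / (m + 1 + d + 1 + m)) * b m := by gcongr
      _ = (m + 1 + d) / (m + 1 + d + 1) * (b m / (m + 1 + d + 1 + m)) := by ring

/-- `n = 2 M`, `M ≥ 1`: the root gives `t (1 - t) S(t) ^ 2 = 4`. -/
lemma even_eq (M : ℕ) (x : ℂ) (hx0 : x ≠ 0) (hx1 : x ≠ 1) (hx2 : 1 + x ≠ 0)
    (h : (1 - x) * A (2 * (M + 1)) x ^ 2 = 1 + x) :
    x ^ 2 * (1 - x ^ 2) * S (M + 1) (x ^ 2) ^ 2 = 4 := by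
  rw [A_even] at h
  have hI := I M (x ^ 2)
  have hJ := J' (M + 1) (by omega) (x ^ 2)
  push_cast at hJ
  generalize hF : F (M + 1) (x ^ 2) = f at *
  generalize hHH : H (M + 1) (x ^ 2) = hh at *
  generalize hSS : S (M + 1) (x ^ 2) = ss at *
  generalize hB : (b (M + 1) : ℂ) * (x ^ 2) ^ (M + 1) = B at *
  have hBne : B ≠ 0 := by
    rw [← hB]
    refine mul_ne_zero ?_ (pow_ne_zero _ (pow_ne_zero _ hx0))
    exact_mod_cast (b_pos (M + 1)).ne'
  have h1x : 1 - x ≠ 0 := sub_ne_zero.mpr (Ne.symm hx1)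
  -- (W'')
  have hW : (1 - x ^ 2) * f ^ 2 + B * (2 * f + B - x ^ 2 * ss) = 1 := by
    linear_combination hI + B * hJ
  -- divide the root equation
  have h2 : B * (1 - x) * x * ((1 + x) * (x * ss - 2 * f) - 2 * B) = 0 := by
    linear_combination (1 - x) * h - (1 - x ^ 2) * hW
  have h3 : (1 + x) * (x * ss - 2 * f) - 2 * B = 0 := by
    rcases mul_eq_zero.mp h2 with h4 | h4
    · exact absurd h4 (mul_ne_zero (mul_ne_zero hBne h1x) hx0)
    · exact h4
  have h5 : (1 + x) * (x ^ 2 * (1 - x ^ 2) * ss ^ 2 - 4) = 0 := by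
    linear_combination 4 * (1 + x) * hW
      + ((1 - x ^ 2) * (x * ss + 2 * f) + 2 * B * (1 + x)) * h3
  rcases mul_eq_zero.mp h5 with h6 | h6
  · exact absurd h6 hx2
  · linear_combination h6

lemma s_mono (M i : ℕ) (h : i + 1 ≤ M) : s (M + 1) i ≤ s (M + 1) (i + 1) := by
  unfold s
  have hs := b_succ i
  have hb := b_pos i
  have h2 : b (i + 1) = (2 * i + 1) / (2 * i + 2) * b i := by
    field_simp
    linear_combination hs
  rw [h2]
  obtain ⟨d, rfl⟩ : ∃ d, M = i + 1 + d := ⟨M - (i + 1), by omega⟩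
  have hcoef : (2 * (i : ℝ) + 1) / (i + 1 + d + 1 + i + 1)
      ≤ (2 * (i + 1) + 1) * ((2 * i + 1) / (2 * i + 2)) / (i + 1 + d + 1 + (i + 1) + 1) := by
    rw [← mul_div_assoc, div_div, div_le_div_iff₀ (by positivity) (by positivity)]
    have hm0 : (0 : ℝ) ≤ i := Nat.cast_nonneg i
    have hd0 : (0 : ℝ) ≤ d := Nat.cast_nonneg d
    nlinarith [mul_nonneg hm0 hd0, mul_nonneg hm0 hm0, mul_nonneg hd0 hd0,
      mul_nonneg (mul_nonneg hm0 hm0) hd0, mul_nonneg (mul_nonneg hd0 hd0) hm0]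
  push_cast
  calc (2 * (i : ℝ) + 1) * b i / (i + 1 + d + 1 + i + 1)
      = (2 * (i : ℝ) + 1) / (i + 1 + d + 1 + i + 1) * b i := by ring
    _ ≤ (2 * (i + 1) + 1) * ((2 * i + 1) / (2 * i + 2)) / (i + 1 + d + 1 + (i + 1) + 1) * b i := by
        gcongr
    _ = (2 * ((i : ℝ) + 1) + 1) * ((2 * i + 1) / (2 * i + 2) * b i)
          / (i + 1 + d + 1 + (i + 1) + 1) := by ring

lemma s_pos (M i : ℕ) : 0 < s M i := by
  unfold s
  have := b_pos i
  positivity

lemma s_top (M : ℕ) : s (M + 1) M = b (M + 1) := by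
  unfold s
  have hs := b_succ M
  push_cast
  rw [div_eq_iff (by positivity)]
  linear_combination -hs

lemma s_le (M : ℕ) : ∀ i ≤ M, s (M + 1) i ≤ b (M + 1) := by
  have key : ∀ d i : ℕ, i + d = M → s (M + 1) i ≤ b (M + 1) := by
    intro d
    induction d with
    | zero => intro i hi; rw [← s_top]; simp at hi; rw [hi]
    | succ d ih => intro i hi; exact (s_mono M i (by omega)).trans (ih (i + 1) (by omega))
  intro i hi
  exact key (M - i) i (by omega)

lemma abel_aux (a : ℕ → ℝ) (T : ℝ) (hT : 1 ≤ T) (t : ℂ) (ht : ‖t‖ ≤ T) (ha : ∀ i, 0 < a i) :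
    ∀ K : ℕ, (∀ i < K, a i ≤ a (i + 1)) →
      ‖(1 - t) * (∑ i ∈ range (K + 1), (a i : ℂ) * t ^ i) + (a K : ℂ) * t ^ (K + 1)‖
        ≤ a K * T ^ K := by
  intro K
  induction K with
  | zero =>
    intro _
    have h : (1 - t) * (∑ i ∈ range (0 + 1), (a i : ℂ) * t ^ i) + (a 0 : ℂ) * t ^ (0 + 1)
        = ((a 0 : ℝ) : ℂ) := by
      simp
      ring
    rw [h, Complex.norm_real, Real.norm_of_nonneg (ha 0).le]
    simp
  | succ K ih =>
    intro h
    have ih' := ih (fun i hi => h i (by omega))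
    have hK := h K (by omega)
    rw [Finset.sum_range_succ]
    have e : (1 - t) * (∑ i ∈ range (K + 1), (a i : ℂ) * t ^ i + (a (K + 1) : ℂ) * t ^ (K + 1))
          + (a (K + 1) : ℂ) * t ^ (K + 1 + 1)
        = ((1 - t) * (∑ i ∈ range (K + 1), (a i : ℂ) * t ^ i) + (a K : ℂ) * t ^ (K + 1))
          + ((a (K + 1) - a K : ℝ) : ℂ) * t ^ (K + 1) := by
      push_cast
      ring
    rw [e]
    refine (norm_add_le _ _).trans ?_
    rw [norm_mul, Complex.norm_real, Real.norm_of_nonneg (by linarith), norm_pow]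
    have h1 : ‖t‖ ^ (K + 1) ≤ T ^ (K + 1) := by gcongr
    have h2 : T ^ K ≤ T ^ (K + 1) := pow_le_pow_right₀ hT (by omega)
    have h3 : a K * T ^ K ≤ a K * T ^ (K + 1) := mul_le_mul_of_nonneg_left h2 (ha K).le
    have h4 : (a (K + 1) - a K) * ‖t‖ ^ (K + 1) ≤ (a (K + 1) - a K) * T ^ (K + 1) :=
      mul_le_mul_of_nonneg_left h1 (by linarith)
    linarith

lemma even_bound (M : ℕ) (T : ℝ) (hT : 1 ≤ T) (t : ℂ) (ht : ‖t‖ ≤ T) :
    ‖t * (1 - t) * S (M + 1) t ^ 2‖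
      ≤ 2 * b (M + 1) ^ 2 * T ^ (M + 2) * ∑ i ∈ range (M + 1), T ^ i := by
  have h1 : ‖(1 - t) * S (M + 1) t‖ ≤ 2 * b (M + 1) * T ^ (M + 1) := by
    have h2 := abel_aux (s (M + 1)) T hT t ht (s_pos (M + 1)) M (fun i hi => s_mono M i (by omega))
    rw [s_top] at h2
    have h3 : (1 - t) * S (M + 1) t
        = ((1 - t) * (∑ i ∈ range (M + 1), (s (M + 1) i : ℂ) * t ^ i)
          + (b (M + 1) : ℂ) * t ^ (M + 1)) - (b (M + 1) : ℂ) * t ^ (M + 1) := by
      unfold S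
      ring
    rw [h3]
    refine (norm_sub_le _ _).trans ?_
    rw [norm_mul, Complex.norm_real, Real.norm_of_nonneg (b_pos _).le, norm_pow]
    have h4 : ‖t‖ ^ (M + 1) ≤ T ^ (M + 1) := by gcongr
    have h5 : T ^ M ≤ T ^ (M + 1) := pow_le_pow_right₀ hT (by omega)
    have hb := b_pos (M + 1)
    nlinarith
  have h6 : ‖S (M + 1) t‖ ≤ b (M + 1) * ∑ i ∈ range (M + 1), T ^ i := by
    unfold S
    refine (norm_sum_le _ _).trans ?_
    rw [Finset.mul_sum]
    refine Finset.sum_le_sum (fun i hi => ?_)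
    rw [Finset.mem_range] at hi
    rw [norm_mul, Complex.norm_real, Real.norm_of_nonneg (s_pos _ _).le, norm_pow]
    have h7 := s_le M i (by omega)
    have h8 := s_pos (M + 1) i
    have h9 := b_pos (M + 1)
    gcongr
  have e : t * (1 - t) * S (M + 1) t ^ 2 = t * ((1 - t) * S (M + 1) t) * S (M + 1) t := by ring
  rw [e, norm_mul, norm_mul]
  have hb := b_pos (M + 1)
  calc ‖t‖ * ‖(1 - t) * S (M + 1) t‖ * ‖S (M + 1) t‖
      ≤ T * (2 * b (M + 1) * T ^ (M + 1)) * (b (M + 1) * ∑ i ∈ range (M + 1), T ^ i) := by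
        gcongr
    _ = 2 * b (M + 1) ^ 2 * T ^ (M + 2) * ∑ i ∈ range (M + 1), T ^ i := by ring

/-- The numerical inequality for even `n = 2 (M + 1)`. -/
lemma num (M : ℕ) :
    2 * b (M + 1) ^ 2 * (((2 * (M + 1 : ℕ) + 2 : ℝ) / (2 * (M + 1 : ℕ) + 1)) ^ 2) ^ (M + 2)
      * ∑ i ∈ range (M + 1), (((2 * (M + 1 : ℕ) + 2 : ℝ) / (2 * (M + 1 : ℕ) + 1)) ^ 2) ^ i < 4 := by
  obtain ⟨N, hN⟩ : ∃ N : ℝ, N = 2 * (M + 1 : ℕ) + 1 := ⟨_, rfl⟩
  have hN3 : 3 ≤ N := by
    rw [hN]; push_cast; linarith [Nat.cast_nonneg (α := ℝ) M]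
  have hN0 : 0 < N := by linarith
  obtain ⟨ρ, hρ⟩ : ∃ ρ : ℝ, ρ = 1 + 1 / N := ⟨_, rfl⟩
  have hρe : (2 * (M + 1 : ℕ) + 2 : ℝ) / (2 * (M + 1 : ℕ) + 1) = ρ := by
    rw [hρ, hN]
    field_simp
    ring
  rw [hρe]
  have hρ1 : 1 < ρ := by rw [hρ]; have := one_div_pos.mpr hN0; linarith
  -- `r = ρ ^ N ≤ 3`
  obtain ⟨r, hr⟩ : ∃ r : ℝ, r = ρ ^ (2 * (M + 1) + 1) := ⟨_, rfl⟩
  have hr3 : r ≤ 3 := by
    have h1 : ρ ≤ Real.exp (1 / N) := by
      rw [hρ]; linarith [Real.add_one_le_exp (1 / N)]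
    have h2 : r ≤ Real.exp (1 / N) ^ (2 * (M + 1) + 1) := by
      rw [hr]; gcongr
    rw [← Real.exp_nat_mul] at h2
    have h3 : ((2 * (M + 1) + 1 : ℕ) : ℝ) * (1 / N) = 1 := by
      have : ((2 * (M + 1) + 1 : ℕ) : ℝ) = N := by rw [hN]; push_cast; ring
      rw [this]; field_simp
    rw [h3] at h2
    have := Real.exp_one_lt_d9
    linarith
  have hrρ : ρ ≤ r := by
    rw [hr]
    calc ρ = ρ ^ 1 := (pow_one ρ).symm
      _ ≤ ρ ^ (2 * (M + 1) + 1) := pow_le_pow_right₀ hρ1.le (by omega)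
  have hgeo := geom_sum_mul (ρ ^ 2) (M + 1)
  have hb := b_le (M + 1)
  obtain ⟨q, hq⟩ : ∃ q : ℝ, q = ∑ i ∈ range (M + 1), (ρ ^ 2) ^ i := ⟨_, rfl⟩
  rw [← hq] at hgeo ⊢
  have hq0 : 0 < q := by
    rw [hq]
    refine Finset.sum_pos (fun i _ => by positivity) ⟨0, by simp⟩
  have e1 : (ρ ^ 2) ^ (M + 2) = r * ρ := by
    rw [hr, ← pow_mul]; ring
  have e2 : (ρ ^ 2) ^ (M + 1) * ρ = r := by
    rw [hr, ← pow_mul]; ring
  have e3 : (ρ ^ 2 - 1) * N ^ 2 = 2 * N + 1 := by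
    rw [hρ]; field_simp; ring
  have e4 : ρ * N = N + 1 := by
    rw [hρ]; field_simp
  rw [e1]
  -- `ρ q (2 N + 1) = (r - ρ) N ^ 2`
  have e5 : ρ * q * (2 * N + 1) = (r - ρ) * N ^ 2 := by
    rw [← e3, ← e2]
    linear_combination (ρ * N ^ 2) * hgeo
  have hb' : b (M + 1) ^ 2 * (3 * N - 1) ≤ 2 := by
    rw [hN]
    push_cast at hb ⊢
    linarith
  have hB0 : 0 < b (M + 1) ^ 2 := by have := b_pos (M + 1); positivity
  -- multiply by (3 N - 1) (2 N + 1)
  have hpos : 0 < (3 * N - 1) * (2 * N + 1) := by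
    apply mul_pos <;> linarith
  have hfin : 2 * b (M + 1) ^ 2 * (r * ρ) * q * ((3 * N - 1) * (2 * N + 1))
      < 4 * ((3 * N - 1) * (2 * N + 1)) := by
    have h1 : 2 * b (M + 1) ^ 2 * (r * ρ) * q * ((3 * N - 1) * (2 * N + 1))
        = 2 * (b (M + 1) ^ 2 * (3 * N - 1)) * (r * ((r - ρ) * N ^ 2)) := by
      rw [← e5]; ring
    rw [h1]
    have h2 : 0 ≤ r * ((r - ρ) * N ^ 2) := by
      apply mul_nonneg (by linarith)
      apply mul_nonneg (by linarith) (by positivity)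
    have h3 : 2 * (b (M + 1) ^ 2 * (3 * N - 1)) * (r * ((r - ρ) * N ^ 2))
        ≤ 4 * (r * ((r - ρ) * N ^ 2)) := by nlinarith
    have h4 : r * ((r - ρ) * N ^ 2) ≤ 3 * ((3 - ρ) * N ^ 2) := by
      have : (r - ρ) * N ^ 2 ≤ (3 - ρ) * N ^ 2 := by
        apply mul_le_mul_of_nonneg_right (by linarith) (by positivity)
      apply mul_le_mul hr3 this _ (by norm_num)
      apply mul_nonneg (by linarith) (by positivity)
    have h5 : 3 * ((3 - ρ) * N ^ 2) < (3 * N - 1) * (2 * N + 1) := by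
      have : ρ * N ^ 2 = N ^ 2 + N := by
        rw [pow_two, ← mul_assoc, e4]; ring
      nlinarith
    linarith
  exact lt_of_mul_lt_mul_right hfin hpos.le

/-- **Pascalian polynomials have no common nontrivial roots.** -/
theorem main (n k : ℕ) (hk : 1 ≤ k) (z : ℂ) (hz : z ≠ -1) (h1 : Pc n z = 0)
    (h2 : Pc (n + k) z = 0) : False := by
  obtain ⟨k, rfl⟩ : ∃ l, k = l + 1 := ⟨k - 1, by omega⟩
  have hz0 : z ≠ 0 := by
    rintro rfl
    have := Pc_eq 0 0 (by simp) n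
    rw [h1] at this
    simp [A] at this
    norm_num at this
  have hz1 : z ≠ 1 := by
    rintro rfl
    have := Pc_eq 1 1 (by norm_num) n
    rw [h1] at this
    norm_num at this
  have hzi : 1 + z ^ 2 ≠ 0 := by
    intro h
    have e : n + (k + 1) = (n + k) + 1 := by ring
    rw [e, Pc_succ, h, zero_mul, zero_add] at h2
    have hc : ((n + k).choose ((n + k) / 2) : ℂ) ≠ 0 := by
      exact_mod_cast (Nat.choose_pos (Nat.div_le_self _ 2)).ne'
    rcases mul_eq_zero.mp h2 with h3 | h3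
    · exact (mul_ne_zero hc (pow_ne_zero _ hz0)) h3
    · exact hz1 (by linear_combination -h3)
  obtain ⟨x, hx⟩ : ∃ x : ℂ, x * (1 + z ^ 2) = 2 * z := ⟨2 * z / (1 + z ^ 2), by field_simp⟩
  have hx0 : x ≠ 0 := by
    rintro rfl
    rw [zero_mul] at hx
    exact (mul_ne_zero two_ne_zero hz0) hx.symm
  have hx1 : x ≠ 1 := by
    rintro rfl
    have : (1 - z) ^ 2 = 0 := by linear_combination hx
    exact hz1 (by linear_combination -(pow_eq_zero_iff two_ne_zero).mp this)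
  have hx2 : 1 + x ≠ 0 := by
    intro h
    have hx' : x = -1 := by linear_combination h
    rw [hx'] at hx
    have : (1 + z) ^ 2 = 0 := by linear_combination -hx
    exact hz (by linear_combination (pow_eq_zero_iff two_ne_zero).mp this)
  have hA : ∀ m : ℕ, Pc m z = 0 → (1 - z) * A m x = -(1 + z) := by
    intro m hm
    have := Pc_eq z x hx m
    rw [hm, mul_zero] at this
    rcases mul_eq_zero.mp this.symm with h | h
    · exact absurd h (pow_ne_zero _ hzi)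
    · linear_combination h
  have hA1 := hA n h1
  have hA2 := hA (n + (k + 1)) h2
  have hroot : (1 - x) * A n x ^ 2 = 1 + x := by
    have h3 : (1 + z ^ 2) * ((1 - x) * A n x ^ 2 - (1 + x)) = 0 := by
      linear_combination ((1 - z) * A n x - (1 + z)) * hA1 - (A n x ^ 2 + 1) * hx
    rcases mul_eq_zero.mp h3 with h | h
    · exact absurd h hzi
    · linear_combination h
  -- the difference
  have hQ : ∑ i ∈ range (k + 1), (g (n + i) : ℂ) * x ^ i = 0 := by
    have h3 : A (n + (k + 1)) x = A n x + x ^ (n + 1) * ∑ i ∈ range (k + 1), (g (n + i) : ℂ) * x ^ i := by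
      unfold A
      rw [Finset.sum_range_add, Finset.mul_sum, add_assoc]
      congr 2
      refine Finset.sum_congr rfl (fun i _ => ?_)
      ring
    have h4 : (1 - z) * (x ^ (n + 1) * ∑ i ∈ range (k + 1), (g (n + i) : ℂ) * x ^ i) = 0 := by
      rw [h3] at hA2
      linear_combination hA2 - hA1
    rcases mul_eq_zero.mp h4 with h | h
    · exact absurd (by linear_combination -h) hz1
    · rcases mul_eq_zero.mp h with h | h
      · exact absurd h (pow_ne_zero _ hx0)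
      · exact h
  have hbound : ∀ M : ℕ, 2 * M ≤ n + 1 → ‖x‖ ≤ (2 * M + 2) / (2 * M + 1) := by
    intro M hM
    refine ek (fun i => g (n + i)) ((2 * M + 2) / (2 * M + 1)) (by positivity) x
      (fun i => g_pos _) k ?_ hQ
    intro i _
    exact g_ratio M (n + i) (by omega)
  rcases Nat.even_or_odd' n with ⟨M, rfl | rfl⟩
  · rcases M with _ | M
    · -- n = 0
      simp [Pc] at h1
    · have h3 := even_eq M x hx0 hx1 hx2 hroot
      have h4 := hbound (M + 1) (by omega)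
      have hT : (1 : ℝ) ≤ ((2 * (M + 1 : ℕ) + 2 : ℝ) / (2 * (M + 1 : ℕ) + 1)) ^ 2 := by
        apply one_le_pow₀
        rw [le_div_iff₀ (by positivity)]
        linarith
      have ht : ‖x ^ 2‖ ≤ ((2 * (M + 1 : ℕ) + 2 : ℝ) / (2 * (M + 1 : ℕ) + 1)) ^ 2 := by
        rw [norm_pow]
        gcongr
      have h5 := even_bound M _ hT (x ^ 2) ht
      have h6 := num M
      have h7 : ‖x ^ 2 * (1 - x ^ 2) * S (M + 1) (x ^ 2) ^ 2‖ = 4 := by
        rw [h3]; norm_num
      rw [h7] at h5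
      exact absurd h6 (not_lt.mpr h5)
  · rw [A_odd] at hroot
    have h3 : (1 - x ^ 2) * F (M + 1) (x ^ 2) ^ 2 = 1 := by
      have : (1 + x) * ((1 - x ^ 2) * F (M + 1) (x ^ 2) ^ 2 - 1) = 0 := by
        linear_combination hroot
      rcases mul_eq_zero.mp this with h | h
      · exact absurd h hx2
      · linear_combination h
    have h4 := odd_case M (x ^ 2) (pow_ne_zero _ hx0) h3
    have h5 := hbound (M + 1) (by omega)
    rw [norm_pow] at h4
    have h6 : ‖x‖ ^ 2 ≤ ((2 * ((M : ℝ) + 1) + 2) / (2 * (M + 1) + 1)) ^ 2 := by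
      push_cast at h5
      gcongr
    have h7 : (M : ℝ) / (M + 1) * ((2 * ((M : ℝ) + 1) + 2) / (2 * (M + 1) + 1)) ^ 2 < 1 := by
      rw [div_pow, div_mul_div_comm, div_lt_one (by positivity)]
      nlinarith [Nat.cast_nonneg (α := ℝ) M]
    have h8 : (M : ℝ) / (M + 1) * ‖x‖ ^ 2
        ≤ (M : ℝ) / (M + 1) * ((2 * ((M : ℝ) + 1) + 2) / (2 * (M + 1) + 1)) ^ 2 := by
      gcongr
    linarith

/-- For every `n ≥ 1` and `1 ≤ k ≤ n` the polynomials `P n` and `P (n - k)` have no common complex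
root other than `-1`. -/
theorem result : ∀ n k : ℕ, 1 ≤ n → 1 ≤ k → k ≤ n → ∀ z : ℂ, z ≠ -1 →
    ¬ (Polynomial.aeval z (P n) = 0 ∧ Polynomial.aeval z (P (n - k)) = 0) := by
  rintro n k _ hk hkn z hz ⟨h1, h2⟩
  rw [aeval_P] at h1 h2
  refine main (n - k) k hk z hz h2 ?_
  have : n - k + k = n := by omega
  rw [this]
  exact h1

end Pool.Agent.Results.MP_454c72_al.NoCommonRoots
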